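import Pool.Agent.Lib.MP_49888f_co.PG.Hull
import Pool.Agent.Lib.MP_49888f_co.CV.Asm

/-! MP_49888f_co, polygons with at most five vertices: the case of a pentagon (helper47).

Coordinates: `z = s + (X - b) u + Y v`, `s = (b, 0)`, `r = (b, 1)`, `q = (0, a)`, `p = (1, a)`, `w = (x, y)`;
`R = cr u v` is the largest cross product of two chords, `t R` is twice the area of the triangle `p w r`. -/

set_option autoImplicit false

namespace Pool.Agent.MP49888f.PG

open MeasureTheory Set Pool.Agent.MP49888f.CV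
open scoped Pointwise

/-- large `R` -/
theorem large (C : Set E2) (hC : Convex ℝ C) (hk : IsCompact C) (hpos : 0 < volume C)
    (z d : E2) (hz : z ∈ C - C) (hd : d ∈ C - C)
    (h : 3 / 2 * (volume C).toReal ≤ |cr z d|) : CovLE C (6 / 5) := by
  refine (general C hC hk hpos z d hz hd (3 / 50) (129 / 200) (by norm_num) (by norm_num)
    (by norm_num)).mono ?_
  have hK : 0 < (volume C).toReal := ENNReal.toReal_pos hpos.ne' hk.measure_lt_top.ne
  have hden : 0 < (volume C).toReal + (1 - 3 / 50 - 129 / 200) * |cr z d| := by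
    have := abs_nonneg (cr z d)
    nlinarith
  rw [div_le_iff₀ hden]
  have hc : Cc (3 / 50) (129 / 200) ≤ 0.8642 := by
    unfold Cc
    norm_num
  have h1 : 2 * Cc (3 / 50) (129 / 200) * (volume C).toReal ≤ 2 * 0.8642 * (volume C).toReal := by
    nlinarith
  linarith

/-- the parameters of the hexagon -/
theorem params {a b x y t : ℝ} (ht : t = (1 - a) * (x - b) - (1 - b) * (1 - y)) (ht1 : 1 / 3 < t)
    (hta : t ≤ a) (htb : t ≤ b) (ha1 : a ≤ 1) (hb1 : b ≤ 1) (hx : x ≤ 1) (hy : y ≤ 1) :
    0 < x - b ∧ 0 < y - a ∧ ∃ α β : ℝ, 0 ≤ α ∧ α ≤ 1 ∧ 0 ≤ β ∧ β ≤ 1 ∧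
      b + α * (b - x) = β * (1 - x) ∧ α * (1 - y) - a = β * (a - y) ∧
      x + y - a + α * (b - x + 1 - y) = 1 + t - α * β * t ∧ α * β * t ≤ 3 / 16 := by
  have ht0 : 0 < t := by linarith
  have ht' : t = (1 - b) * (y - a) - (1 - a) * (1 - x) := by rw [ht]; ring
  have h1 : 0 ≤ (1 - b) * (1 - y) := mul_nonneg (by linarith) (by linarith)
  have h2 : 0 ≤ (1 - a) * (1 - x) := mul_nonneg (by linarith) (by linarith)
  have h3 : 0 < (1 - a) * (x - b) := by linarith
  have h4 : 0 < (1 - b) * (y - a) := by linarith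
  have hxb : 0 < x - b := by
    by_contra hcon
    have := mul_nonneg (show (0 : ℝ) ≤ 1 - a by linarith) (show (0 : ℝ) ≤ -(x - b) by linarith)
    linarith
  have hya : 0 < y - a := by
    by_contra hcon
    have := mul_nonneg (show (0 : ℝ) ≤ 1 - b by linarith) (show (0 : ℝ) ≤ -(y - a) by linarith)
    linarith
  have h5 : t ≤ (1 - a) * (1 - b) := by nlinarith
  have ha2 : a ≤ 1 / 2 := by nlinarith
  have hb2 : b ≤ 1 / 2 := by nlinarith
  -- `(1 - a) (1 - x) ≤ (1 - 2 b) t`
  have h6 : (1 - a) * (1 - x) ≤ (1 - 2 * b) * t := by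
    have e1 : (1 - a) * (1 - x) ≤ (1 - a) * (1 - b) - t := by nlinarith
    have e2 : (1 - a) * (1 - b) ≤ (1 - t) * (1 - b) := by nlinarith
    have e3 : (1 - t) * (1 - b) - t ≤ (1 - 2 * b) * t := by nlinarith
    linarith
  have h7 : (1 - b) * (1 - y) ≤ (1 - 2 * a) * t := by
    have e1 : (1 - b) * (1 - y) ≤ (1 - a) * (1 - b) - t := by nlinarith
    have e2 : (1 - a) * (1 - b) ≤ (1 - t) * (1 - a) := by nlinarith
    have e3 : (1 - t) * (1 - a) - t ≤ (1 - 2 * a) * t := by nlinarith
    linarith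
  have h8 : 0 ≤ 1 - x := by linarith
  have h9 : 0 ≤ 1 - y := by linarith
  have hab1 : (b - a) * (1 - x) ≤ (1 - 2 * b) * t := by
    have : (b - a) * (1 - x) ≤ (1 - a) * (1 - x) := by nlinarith
    linarith
  have hab2 : (a - b) * (1 - y) ≤ (1 - 2 * a) * t := by
    have : (a - b) * (1 - y) ≤ (1 - b) * (1 - y) := by nlinarith
    linarith
  have hx23 : 1 - x ≤ 2 / 3 := by linarith
  have hy23 : 1 - y ≤ 2 / 3 := by linarith
  have hab3 : (a - b) * (1 - x) ≤ b * t := by nlinarith
  have hab4 : (b - a) * (1 - y) ≤ a * t := by nlinarith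
  have hα0 : 0 ≤ b * (y - a) - a * (1 - x) := by
    have e : (1 - b) * (b * (y - a) - a * (1 - x)) = b * t - (a - b) * (1 - x) := by
      rw [ht']; ring
    by_contra hcon
    push Not at hcon
    nlinarith
  have hβ0 : 0 ≤ a * (x - b) - b * (1 - y) := by
    have e : (1 - a) * (a * (x - b) - b * (1 - y)) = a * t - (b - a) * (1 - y) := by
      rw [ht]; ring
    by_contra hcon
    push Not at hcon
    nlinarith
  have hα1 : b * (y - a) - a * (1 - x) ≤ t := by
    have e : (1 - b) * (t - (b * (y - a) - a * (1 - x))) =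
        (1 - 2 * b) * t - (b - a) * (1 - x) := by
      rw [ht']; ring
    by_contra hcon
    push Not at hcon
    nlinarith
  have hβ1 : a * (x - b) - b * (1 - y) ≤ t := by
    have e : (1 - a) * (t - (a * (x - b) - b * (1 - y))) =
        (1 - 2 * a) * t - (a - b) * (1 - y) := by
      rw [ht]; ring
    by_contra hcon
    push Not at hcon
    nlinarith
  refine ⟨hxb, hya, (b * (y - a) - a * (1 - x)) / t, (a * (x - b) - b * (1 - y)) / t,
    div_nonneg hα0 ht0.le, (div_le_one ht0).mpr hα1, div_nonneg hβ0 ht0.le,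
    (div_le_one ht0).mpr hβ1, ?_, ?_, ?_, ?_⟩
  · field_simp
    rw [ht]
    ring
  · field_simp
    rw [ht]
    ring
  · field_simp
    rw [ht]
    ring
  · have e1 : b * (y - a) - a * (1 - x) ≤ b * (1 - a) := by nlinarith
    have e2 : a * (x - b) - b * (1 - y) ≤ a * (1 - b) := by nlinarith
    have e3 : (b * (y - a) - a * (1 - x)) * (a * (x - b) - b * (1 - y)) ≤
        (b * (1 - a)) * (a * (1 - b)) := mul_le_mul e1 e2 hβ0 (by nlinarith)
    have e4 : (b * (1 - a)) * (a * (1 - b)) ≤ 1 / 16 := by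
      have e5 : a * (1 - a) ≤ 1 / 4 := by nlinarith [sq_nonneg (a - 1 / 2)]
      have e6 : b * (1 - b) ≤ 1 / 4 := by nlinarith [sq_nonneg (b - 1 / 2)]
      have e7 : (a * (1 - a)) * (b * (1 - b)) ≤ 1 / 4 * (1 / 4) :=
        mul_le_mul e5 e6 (by nlinarith) (by norm_num)
      linarith
    have e8 : (b * (y - a) - a * (1 - x)) / t * ((a * (x - b) - b * (1 - y)) / t) * t =
        (b * (y - a) - a * (1 - x)) * (a * (x - b) - b * (1 - y)) / t := by
      field_simp
    rw [e8, div_le_iff₀ ht0]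
    linarith

theorem pent (C : Set E2) (hC : Convex ℝ C) (hk : IsCompact C) (hpos : 0 < volume C)
    (s u v : E2) (hR : 0 < cr u v) (a b x y t : ℝ)
    (ht : t = (1 - a) * (x - b) - (1 - b) * (1 - y)) (ht0 : 0 < t) (hta : t ≤ a) (htb : t ≤ b)
    (ha1 : a ≤ 1) (hb1 : b ≤ 1) (hx : x ≤ 1) (hy : y ≤ 1)
    (hs : s ∈ C) (hr : s + v ∈ C) (hq : s + (-b) • u + a • v ∈ C)
    (hp : s + (1 - b) • u + a • v ∈ C) (hw : s + (x - b) • u + y • v ∈ C)
    (hK : (volume C).toReal ≤ |cr u v| * (1 + t) / 2) : CovLE C (6 / 5) := by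
  have hu : u ∈ C - C := Set.mem_sub.mpr ⟨_, hp, _, hq, by module⟩
  have hv : v ∈ C - C := Set.mem_sub.mpr ⟨_, hr, _, hs, by module⟩
  rcases le_or_gt (3 / 2 * (volume C).toReal) |cr u v| with hcase | hcase
  · exact large C hC hk hpos u v hu hv hcase
  rw [abs_of_pos hR] at hcase hK
  have ht1 : 1 / 3 < t := by
    by_contra hcon
    push Not at hcon
    nlinarith
  obtain ⟨hxb, hya, α, β, hα0, hα1, hβ0, hβ1, e1, e2, e3, e4⟩ :=
    params ht ht1 hta htb ha1 hb1 hx hy
  have hb0 : 0 < b := by linarith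
  have ha0 : 0 < a := by linarith
  -- the four points
  have hA : s + (x - b + α * (b - x)) • u + (y + α * (1 - y)) • v ∈ C := by
    have h1 := hC hw hr (show (0 : ℝ) ≤ 1 - α by linarith) hα0 (by ring)
    have e : s + (x - b + α * (b - x)) • u + (y + α * (1 - y)) • v =
        (1 - α) • (s + (x - b) • u + y • v) + α • (s + v) := by module
    rw [e]
    exact h1
  have hB : s + (x - b + β * (1 - x)) • u + (y + β * (a - y)) • v ∈ C := by
    have h1 := hC hw hp (show (0 : ℝ) ≤ 1 - β by linarith) hβ0 (by ring)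
    have e : s + (x - b + β * (1 - x)) • u + (y + β * (a - y)) • v =
        (1 - β) • (s + (x - b) • u + y • v) + β • (s + (1 - b) • u + a • v) := by module
    rw [e]
    exact h1
  obtain ⟨g, hg⟩ : ∃ g : ℝ, g = x + α * (b - x) := ⟨_, rfl⟩
  obtain ⟨h, hh⟩ : ∃ h : ℝ, h = y + α * (1 - y) - a := ⟨_, rfl⟩
  have hg0 : 0 < g := by
    have : g = (1 - α) * (x - b) + b := by rw [hg]; ring
    rw [this]
    have := mul_nonneg (show (0 : ℝ) ≤ 1 - α by linarith) hxb.le
    linarith
  have hh0 : 0 < h := by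
    rw [hh]
    have := mul_nonneg hα0 (show (0 : ℝ) ≤ 1 - y by linarith)
    linarith
  have hcov := hex_cov C hC hk (s + (x - b + α * (b - x)) • u + (y + α * (1 - y)) • v)
    ((-g) • u + (-h) • v) (b • u + (-a) • v) (s + (1 - b) • u + a • v) (s + v) hA
    (by
      have e : s + (x - b + α * (b - x)) • u + (y + α * (1 - y)) • v + ((-g) • u + (-h) • v) =
          s + (-b) • u + a • v := by
        rw [hg, hh]
        module
      rw [e]
      exact hq)
    (by
      have f1 : x - b + β * (1 - x) = x + α * (b - x) := by linarith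
      have f2 : y + β * (a - y) = y + α * (1 - y) - a := by linarith
      rw [f1, f2] at hB
      have e : s + (x - b + α * (b - x)) • u + (y + α * (1 - y)) • v + (b • u + (-a) • v) =
          s + (x + α * (b - x)) • u + (y + α * (1 - y) - a) • v := by module
      rw [e]
      exact hB)
    (by
      have e : s + (x - b + α * (b - x)) • u + (y + α * (1 - y)) • v + ((-g) • u + (-h) • v) +
          (b • u + (-a) • v) = s := by
        rw [hg, hh]
        module
      rw [e]
      exact hs)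
    hp hr
    (by
      rw [cr_comb]
      refine mul_pos ?_ hR
      have := mul_pos hg0 ha0
      have := mul_pos hh0 hb0
      linarith)
    (by
      have f1 : x - b + β * (1 - x) = x + α * (b - x) := by linarith
      have f2 : y + β * (a - y) = y + α * (1 - y) - a := by linarith
      have e : s + (1 - b) • u + a • v -
          (s + (x - b + α * (b - x)) • u + (y + α * (1 - y)) • v + (b • u + (-a) • v)) =
          ((1 - β) * (1 - x)) • u + ((1 - β) * (a - y)) • v := by
        have e5 : s + (x - b + α * (b - x)) • u + (y + α * (1 - y)) • v + (b • u + (-a) • v) =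
          s + (x + α * (b - x)) • u + (y + α * (1 - y) - a) • v := by module
        rw [e5, ← f1, ← f2]
        module
      rw [e, cr_comb]
      refine mul_nonneg ?_ hR.le
      have k1 := mul_nonneg (mul_nonneg hg0.le (show (0 : ℝ) ≤ 1 - β by linarith)) hya.le
      have k2 := mul_nonneg (mul_nonneg hh0.le (show (0 : ℝ) ≤ 1 - β by linarith))
        (show (0 : ℝ) ≤ 1 - x by linarith)
      linarith)
    (by
      have e : s + (x - b + α * (b - x)) • u + (y + α * (1 - y)) • v - (s + v) =
          ((1 - α) * (x - b)) • u + ((1 - α) * (y - 1)) • v := by module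
      rw [e, cr_comb]
      refine mul_nonneg ?_ hR.le
      have k1 := mul_nonneg (mul_nonneg hg0.le (show (0 : ℝ) ≤ 1 - α by linarith))
        (show (0 : ℝ) ≤ 1 - y by linarith)
      have k2 := mul_nonneg (mul_nonneg hh0.le (show (0 : ℝ) ≤ 1 - α by linarith)) hxb.le
      linarith)
  refine hcov.mono ?_
  have e5 : b • u + (-a) • v + (s + (1 - b) • u + a • v) - (s + v) =
      (1 : ℝ) • u + (-1 : ℝ) • v := by module
  have e6 : cr ((-g) • u + (-h) • v) (b • u + (-a) • v + (s + (1 - b) • u + a • v) - (s + v)) =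
      (1 + t - α * β * t) * cr u v := by
    rw [e5, cr_comb, ← e3, hg, hh]
    ring
  rw [e6, abs_of_pos (mul_pos (by linarith) hR), div_le_iff₀ (mul_pos (by linarith) hR)]
  have e7 : 5 * (1 + t) ≤ 6 * (1 + t - α * β * t) := by linarith
  nlinarith

end Pool.Agent.MP49888f.PG
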