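import Pool.Agent.Lib.MP_49888f_co.PG.Five

/-! MP_49888f_co, polygons with at most five vertices: main theorem (helper47). -/

set_option autoImplicit false

namespace Pool.Agent.MP49888f.PG

open MeasureTheory Set Pool.Agent.MP49888f.CV
open scoped Pointwise

/-- all points of `S` lie in the quadrilateral -/
theorem quad_case (S : Set E2) (C : Set E2) (hCS : C = convexHull ℝ S) (hk : IsCompact C)
    (hpos : 0 < volume C) {p q r s : E2} (h : Max S p q r s) (hR : 0 < cr (p - q) (r - s))
    (hA : ∀ z ∈ S, 0 ≤ cr (r - p) (z - p)) (hB : ∀ z ∈ S, 0 ≤ cr (q - r) (z - r))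
    (hC : ∀ z ∈ S, 0 ≤ cr (s - q) (z - q)) (hD : ∀ z ∈ S, 0 ≤ cr (p - s) (z - s)) :
    CovLE C (6 / 5) := by
  obtain ⟨a, b, ha0, ha1, hb0, hb1, eq, ep, hz⟩ := h.coord hR
  obtain ⟨u, hu⟩ : ∃ u : E2, u = p - q := ⟨_, rfl⟩
  obtain ⟨v, hv⟩ : ∃ v : E2, v = r - s := ⟨_, rfl⟩
  have er : r = s + v := by rw [hv]; abel
  rw [← hu, ← hv] at eq ep hR
  have hconv : Convex ℝ C := hCS ▸ convex_convexHull ℝ S
  have hSC : S ⊆ C := hCS ▸ subset_convexHull ℝ S
  have key : ∀ z ∈ S, ∃ X Y : ℝ, z = s + (X - b) • u + Y • v ∧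
      ∀ j : Fin 6, (![-1, 1, -(1 - a), -a, a, 1 - a] : Fin 6 → ℝ) j * X +
        (![0, 0, b, -b, -(1 - b), 1 - b] : Fin 6 → ℝ) j * Y ≤
        (![0, 1, a * b, -(a * b), a * b, (1 - b) + (1 - a) * b] : Fin 6 → ℝ) j := by
    intro z hzS
    obtain ⟨X, Y, e, hX0, hX1, hY0, hY1⟩ := hz z hzS
    rw [← hu, ← hv] at e
    have kA := hA z hzS
    have kB := hB z hzS
    have kC := hC z hzS
    have kD := hD z hzS
    have fA : r - p = (b - 1) • u + (1 - a) • v := by rw [er, ep]; module
    have gA : z - p = (X - 1) • u + (Y - a) • v := by rw [e, ep]; module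
    have fB : q - r = (-b) • u + (a - 1) • v := by rw [er, eq]; module
    have gB : z - r = (X - b) • u + (Y - 1) • v := by rw [e, er]; module
    have fC : s - q = b • u + (-a) • v := by rw [eq]; module
    have gC : z - q = X • u + (Y - a) • v := by rw [e, eq]; module
    have fD : p - s = (1 - b) • u + a • v := by rw [ep]; module
    have gD : z - s = (X - b) • u + Y • v := by rw [e]; module
    rw [fA, gA, cr_comb] at kA
    rw [fB, gB, cr_comb] at kB
    rw [fC, gC, cr_comb] at kC
    rw [fD, gD, cr_comb] at kD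
    have kA' := nonneg_of_mul_nonneg_left kA hR
    have kB' := nonneg_of_mul_nonneg_left kB hR
    have kC' := nonneg_of_mul_nonneg_left kC hR
    have kD' := nonneg_of_mul_nonneg_left kD hR
    refine ⟨X, Y, e, fun j => ?_⟩
    fin_cases j
    · show -1 * X + 0 * Y ≤ 0
      linarith
    · show 1 * X + 0 * Y ≤ 1
      linarith
    · show -(1 - a) * X + b * Y ≤ a * b
      linarith
    · show -a * X + -b * Y ≤ -(a * b)
      linarith
    · show a * X + -(1 - b) * Y ≤ a * b
      linarith
    · show (1 - a) * X + (1 - b) * Y ≤ (1 - b) + (1 - a) * b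
      linarith
  have hull := hull_lin S s u v b _ _ _ key
  have harea : (volume C).toReal ≤ |cr u v| / 2 := by
    refine area_quad C s u v a b hb0 hb1 fun z hzC => ?_
    rw [hCS] at hzC
    obtain ⟨X, Y, e, hj⟩ := hull z hzC
    have h0 : -1 * X + 0 * Y ≤ 0 := hj 0
    have h1 : 1 * X + 0 * Y ≤ 1 := hj 1
    have h2 : -(1 - a) * X + b * Y ≤ a * b := hj 2
    have h3 : -a * X + -b * Y ≤ -(a * b) := hj 3
    have h4 : a * X + -(1 - b) * Y ≤ a * b := hj 4
    have h5 : (1 - a) * X + (1 - b) * Y ≤ (1 - b) + (1 - a) * b := hj 5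
    exact ⟨X, Y, e, by linarith, by linarith, by linarith, by linarith, by linarith, by linarith⟩
  refine large C hconv hk hpos u v ?_ ?_ ?_
  · rw [hu]
    exact Set.sub_mem_sub (hSC h.1) (hSC h.2.1)
  · rw [hv]
    exact Set.sub_mem_sub (hSC h.2.2.1) (hSC h.2.2.2.1)
  · have := abs_nonneg (cr u v)
    linarith

/-- some point of `S` lies beyond the side `p r` -/
theorem corner_case (S : Finset E2) (hS : S.card ≤ 5) (C : Set E2)
    (hCS : C = convexHull ℝ (S : Set E2)) (hk : IsCompact C) (hpos : 0 < volume C)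
    {p q r s w : E2} (h : Max (S : Set E2) p q r s) (hR : 0 < cr (p - q) (r - s)) (hw : w ∈ S)
    (hneg : cr (r - p) (w - p) < 0) : CovLE C (6 / 5) := by
  classical
  obtain ⟨a, b, ha0, ha1, hb0, hb1, eq, ep, hz⟩ := h.coord hR
  obtain ⟨x, y, ew, hx0, hx1, hy0, hy1⟩ := hz w hw
  obtain ⟨u, hu⟩ : ∃ u : E2, u = p - q := ⟨_, rfl⟩
  obtain ⟨v, hv⟩ : ∃ v : E2, v = r - s := ⟨_, rfl⟩
  have er : r = s + v := by rw [hv]; abel
  have hm := h.2.2.2.2
  rw [← hu, ← hv] at eq ep hR ew hm
  have hconv : Convex ℝ C := hCS ▸ convex_convexHull ℝ (S : Set E2)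
  have hSC : (S : Set E2) ⊆ C := hCS ▸ subset_convexHull ℝ (S : Set E2)
  obtain ⟨t, ht⟩ : ∃ t : ℝ, t = (1 - a) * (x - b) - (1 - b) * (1 - y) := ⟨_, rfl⟩
  have fA : r - p = (b - 1) • u + (1 - a) • v := by rw [er, ep]; module
  have gA : w - p = (x - 1) • u + (y - a) • v := by rw [ew, ep]; module
  have ht0 : 0 < t := by
    rw [fA, gA, cr_comb] at hneg
    have h1 : (b - 1) * (y - a) - (1 - a) * (x - 1) = -t := by rw [ht]; ring
    rw [h1] at hneg
    by_contra hcon
    push Not at hcon
    have := mul_nonneg (show (0 : ℝ) ≤ -t by linarith) hR.le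
    linarith
  have htb : t ≤ b := by
    have h1 := hm w hw s h.2.2.2.1 r h.2.2.1 p h.1
    have g : w - s = (x - b) • u + y • v := by rw [ew]; module
    rw [g, fA, cr_comb] at h1
    have h2 : (x - b) * (1 - a) - y * (b - 1) ≤ 1 := by
      by_contra hcon
      push Not at hcon
      nlinarith
    have h3 : (x - b) * (1 - a) - y * (b - 1) = t + (1 - b) := by rw [ht]; ring
    linarith
  have hta : t ≤ a := by
    have h1 := hm w hw q h.2.1 r h.2.2.1 p h.1
    have g : w - q = x • u + (y - a) • v := by rw [ew, eq]; module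
    rw [g, fA, cr_comb] at h1
    have h2 : x * (1 - a) - (y - a) * (b - 1) ≤ 1 := by
      by_contra hcon
      push Not at hcon
      nlinarith
    have h3 : x * (1 - a) - (y - a) * (b - 1) = t + (1 - a) := by rw [ht]; ring
    linarith
  have ht' : t = (1 - b) * (y - a) - (1 - a) * (1 - x) := by rw [ht]; ring
  have k1 : 0 ≤ (1 - b) * (1 - y) := mul_nonneg (by linarith) (by linarith)
  have k2 : 0 ≤ (1 - a) * (1 - x) := mul_nonneg (by linarith) (by linarith)
  have ha1' : a < 1 := by
    rcases lt_or_eq_of_le ha1 with h1 | h1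
    · exact h1
    · rw [h1] at ht
      linarith
  have hb1' : b < 1 := by
    rcases lt_or_eq_of_le hb1 with h1 | h1
    · exact h1
    · rw [h1] at ht'
      linarith
  have hxb : 0 < x - b := by
    by_contra hcon
    have := mul_nonneg (show (0 : ℝ) ≤ 1 - a by linarith) (show (0 : ℝ) ≤ -(x - b) by linarith)
    linarith
  have hya : 0 < y - a := by
    by_contra hcon
    have := mul_nonneg (show (0 : ℝ) ≤ 1 - b by linarith) (show (0 : ℝ) ≤ -(y - a) by linarith)
    linarith
  have hap : 0 < a := by linarith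
  have hbp : 0 < b := by linarith
  -- the five points are different
  have npq : p ≠ q := by
    intro e
    rw [hu, e, sub_self, cr_zero_left] at hR
    exact lt_irrefl _ hR
  have nrs : r ≠ s := by
    intro e
    rw [hv, e, sub_self, cr_zero_right] at hR
    exact lt_irrefl _ hR
  have npr : p ≠ r := by
    intro e
    rw [e, sub_self, cr_zero_left] at hneg
    exact lt_irrefl _ hneg
  have nwp : w ≠ p := by
    intro e
    rw [e, sub_self, cr_zero_right] at hneg
    exact lt_irrefl _ hneg
  have nwr : w ≠ r := by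
    intro e
    rw [e, cr_self] at hneg
    exact lt_irrefl _ hneg
  have nps : p ≠ s := by
    intro e
    have e1 : cr u (p - s) = 0 := by rw [e, sub_self, cr_zero_right]
    have e2 : p - s = (1 - b) • u + a • v := by rw [ep]; module
    rw [e2, cr_add_right, cr_smul_right, cr_smul_right, cr_self] at e1
    have := mul_pos hap hR
    linarith
  have nqr : q ≠ r := by
    intro e
    have e1 : cr u (r - q) = 0 := by rw [e, sub_self, cr_zero_right]
    have e2 : r - q = b • u + (1 - a) • v := by rw [er, eq]; module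
    rw [e2, cr_add_right, cr_smul_right, cr_smul_right, cr_self] at e1
    have := mul_pos (show 0 < 1 - a by linarith) hR
    linarith
  have nqs : q ≠ s := by
    intro e
    have e1 : cr u (q - s) = 0 := by rw [e, sub_self, cr_zero_right]
    have e2 : q - s = (-b) • u + a • v := by rw [eq]; module
    rw [e2, cr_add_right, cr_smul_right, cr_smul_right, cr_self] at e1
    have := mul_pos hap hR
    linarith
  have nwq : w ≠ q := by
    intro e
    have e1 : cr u (w - q) = 0 := by rw [e, sub_self, cr_zero_right]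
    have e2 : w - q = x • u + (y - a) • v := by rw [ew, eq]; module
    rw [e2, cr_add_right, cr_smul_right, cr_smul_right, cr_self] at e1
    have := mul_pos hya hR
    linarith
  have nws : w ≠ s := by
    intro e
    have e1 : cr u (w - s) = 0 := by rw [e, sub_self, cr_zero_right]
    have e2 : w - s = (x - b) • u + y • v := by rw [ew]; module
    rw [e2, cr_add_right, cr_smul_right, cr_smul_right, cr_self] at e1
    have := mul_pos (show 0 < y by linarith) hR
    linarith
  have hcard : ({p, q, r, s, w} : Finset E2).card = 5 := by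
    rw [Finset.card_insert_of_notMem, Finset.card_insert_of_notMem, Finset.card_insert_of_notMem,
      Finset.card_insert_of_notMem, Finset.card_singleton]
    · simpa using nws.symm
    · simpa using ⟨nrs, nwr.symm⟩
    · simpa using ⟨nqr, nqs, nwq.symm⟩
    · simpa using ⟨npq, npr, nps, nwp.symm⟩
  have hsub : ({p, q, r, s, w} : Finset E2) ⊆ S := by
    intro z hzm
    simp only [Finset.mem_insert, Finset.mem_singleton] at hzm
    rcases hzm with rfl | rfl | rfl | rfl | rfl
    · exact h.1
    · exact h.2.1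
    · exact h.2.2.1
    · exact h.2.2.2.1
    · exact hw
  have hSeq : ({p, q, r, s, w} : Finset E2) = S :=
    Finset.eq_of_subset_of_card_le hsub (by rw [hcard]; exact hS)
  have key : ∀ z ∈ (S : Set E2), ∃ X Y : ℝ, z = s + (X - b) • u + Y • v ∧
      ∀ j : Fin 5, (![-(1 - a), -a, a, y - a, 1 - y] : Fin 5 → ℝ) j * X +
        (![b, -b, -(1 - b), 1 - x, x - b] : Fin 5 → ℝ) j * Y ≤
        (![a * b, -(a * b), a * b, (y - a) + (1 - x) * a, b * (1 - y) + (x - b)] :
          Fin 5 → ℝ) j := by
    have aux : ∀ X Y : ℝ, -(1 - a) * X + b * Y ≤ a * b → -a * X + -b * Y ≤ -(a * b) →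
        a * X + -(1 - b) * Y ≤ a * b → (y - a) * X + (1 - x) * Y ≤ (y - a) + (1 - x) * a →
        (1 - y) * X + (x - b) * Y ≤ b * (1 - y) + (x - b) →
        ∀ j : Fin 5, (![-(1 - a), -a, a, y - a, 1 - y] : Fin 5 → ℝ) j * X +
        (![b, -b, -(1 - b), 1 - x, x - b] : Fin 5 → ℝ) j * Y ≤
        (![a * b, -(a * b), a * b, (y - a) + (1 - x) * a, b * (1 - y) + (x - b)] :
          Fin 5 → ℝ) j := by
      intro X Y h1 h2 h3 h4 h5 j
      fin_cases j
      · exact h1
      · exact h2
      · exact h3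
      · exact h4
      · exact h5
    intro z hzS
    rw [← hSeq] at hzS
    simp only [Finset.coe_insert, Finset.coe_singleton, Set.mem_insert_iff,
      Set.mem_singleton_iff] at hzS
    have m1 : 0 ≤ (1 - x) * a := mul_nonneg (by linarith) ha0
    have m2 : 0 ≤ (x - b) * (1 - a) := mul_nonneg hxb.le (by linarith)
    have m3 : 0 ≤ (y - a) * (1 - b) := mul_nonneg hya.le (by linarith)
    have m4 : 0 ≤ (1 - y) * b := mul_nonneg (by linarith) hb0
    have m5 : 0 ≤ (x - b) * a := mul_nonneg hxb.le ha0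
    have m6 : 0 ≤ (y - a) * b := mul_nonneg hya.le hb0
    have m7 : 0 ≤ (1 - y) * b := m4
    have m8 : 0 ≤ a * b := mul_nonneg ha0 hb0
    rcases hzS with rfl | rfl | rfl | rfl | rfl
    · refine ⟨1, a, ep, aux _ _ ?_ ?_ ?_ ?_ ?_⟩ <;> linarith
    · refine ⟨0, a, ?_, aux _ _ ?_ ?_ ?_ ?_ ?_⟩
      · rw [zero_sub]
        exact eq
      all_goals linarith
    · refine ⟨b, 1, ?_, aux _ _ ?_ ?_ ?_ ?_ ?_⟩
      · rw [sub_self, zero_smul, add_zero, one_smul]
        exact er
      all_goals linarith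
    · refine ⟨b, 0, ?_, aux _ _ ?_ ?_ ?_ ?_ ?_⟩
      · rw [sub_self, zero_smul, add_zero, zero_smul, add_zero]
      all_goals linarith
    · refine ⟨x, y, ew, aux _ _ ?_ ?_ ?_ ?_ ?_⟩ <;> linarith
  have hull := hull_lin (S : Set E2) s u v b _ _ _ key
  have harea : (volume C).toReal ≤ |cr u v| * (1 + t) / 2 := by
    refine area_pent C s u v a b x y t hbp hb1' ht ht0 fun z hzC => ?_
    rw [hCS] at hzC
    obtain ⟨X, Y, e, hj⟩ := hull z hzC
    have h0 : -(1 - a) * X + b * Y ≤ a * b := hj 0
    have h1 : -a * X + -b * Y ≤ -(a * b) := hj 1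
    have h2 : a * X + -(1 - b) * Y ≤ a * b := hj 2
    have h3 : (y - a) * X + (1 - x) * Y ≤ (y - a) + (1 - x) * a := hj 3
    have h4 : (1 - y) * X + (x - b) * Y ≤ b * (1 - y) + (x - b) := hj 4
    exact ⟨X, Y, e, by linarith, by linarith, by linarith, by linarith, by linarith⟩
  have hsC := hSC h.2.2.2.1
  have hrC := hSC h.2.2.1
  have hqC := hSC h.2.1
  have hpC := hSC h.1
  have hwC := hSC hw
  rw [er] at hrC
  rw [eq] at hqC
  rw [ep] at hpC
  rw [ew] at hwC
  exact pent C hconv hk hpos s u v hR a b x y t ht ht0 hta htb ha1 hb1 hx1 hy1 hsC hrC hqC hpC hwC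
    harea

/-- every convex polygon with at most five vertices -/
theorem five (S : Finset E2) (hS : S.card ≤ 5)
    (hint : (interior (convexHull ℝ (S : Set E2))).Nonempty) :
    CovLE (convexHull ℝ (S : Set E2)) (6 / 5) := by
  have hk : IsCompact (convexHull ℝ (S : Set E2)) := S.finite_toSet.isCompact_convexHull ℝ
  have hpos : 0 < volume (convexHull ℝ (S : Set E2)) :=
    lt_of_lt_of_le (isOpen_interior.measure_pos volume hint) (measure_mono interior_subset)
  have hne : S.Nonempty := by
    rw [Finset.nonempty_iff_ne_empty]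
    rintro rfl
    simp at hint
  obtain ⟨p, q, r, s, h⟩ := exists_max S hne
  have hR := max_pos h hint
  have h2 := h.rot
  have h3 := h2.rot
  have h4 := h3.rot
  have hR2 := max_pos h2 hint
  have hR3 := max_pos h3 hint
  have hR4 := max_pos h4 hint
  by_cases hA : ∀ z ∈ (S : Set E2), 0 ≤ cr (r - p) (z - p)
  · by_cases hB : ∀ z ∈ (S : Set E2), 0 ≤ cr (q - r) (z - r)
    · by_cases hC : ∀ z ∈ (S : Set E2), 0 ≤ cr (s - q) (z - q)
      · by_cases hD : ∀ z ∈ (S : Set E2), 0 ≤ cr (p - s) (z - s)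
        · exact quad_case (S : Set E2) _ rfl hk hpos h hR hA hB hC hD
        · push Not at hD
          obtain ⟨w, hw, hn⟩ := hD
          exact corner_case S hS _ rfl hk hpos h4 hR4 hw hn
      · push Not at hC
        obtain ⟨w, hw, hn⟩ := hC
        exact corner_case S hS _ rfl hk hpos h3 hR3 hw hn
    · push Not at hB
      obtain ⟨w, hw, hn⟩ := hB
      exact corner_case S hS _ rfl hk hpos h2 hR2 hw hn
  · push Not at hA
    obtain ⟨w, hw, hn⟩ := hA
    exact corner_case S hS _ rfl hk hpos h hR hw hn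

end Pool.Agent.MP49888f.PG
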