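import Pool.Agent.Lib.MP_49888f_co.PG.Tri

/-! MP_49888f_co, polygons with at most five vertices: area bounds (helper47).

Coordinates: `z = s + (X - b) u + Y v`, `s = (b, 0)`, `r = (b, 1)`, `q = (0, a)`, `p = (1, a)`, `w = (x, y)`. -/

set_option autoImplicit false

namespace Pool.Agent.MP49888f.PG

open MeasureTheory Set Pool.Agent.MP49888f.CV

theorem cr_comb (u v : E2) (a b c d : ℝ) :
    cr (a • u + b • v) (c • u + d • v) = (a * d - b * c) * cr u v := by
  simp [cr]
  ring

private theorem left_tri {s u v z : E2} {a b X Y : ℝ} (hz : z = s + (X - b) • u + Y • v) (hb : 0 < b)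
    (hX : X ≤ b) (c1 : b * (Y - a) ≤ (1 - a) * X) (c2 : a * b ≤ a * X + b * Y) :
    z ∈ T s v ((-b) • u + a • v) := by
  refine ⟨Y - a * (1 - X / b), 1 - X / b, ?_, ?_, ?_, ?_⟩
  · have h1 : Y - a * (1 - X / b) = (a * X + b * Y - a * b) / b := by
      field_simp
      ring
    rw [h1]
    exact div_nonneg (by linarith) hb.le
  · have h1 : X / b ≤ 1 := (div_le_one hb).mpr hX
    linarith
  · have h1 : Y - a * (1 - X / b) + (1 - X / b) = 1 - ((1 - a) * X - b * (Y - a)) / b := by
      field_simp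
      ring
    rw [h1]
    have h2 : 0 ≤ ((1 - a) * X - b * (Y - a)) / b := div_nonneg (by linarith) hb.le
    linarith
  · have h1 : b * (X / b) = X := by field_simp
    rw [hz]
    generalize X / b = c at *
    subst h1
    module

private theorem right_tri {s u v z : E2} {a b X Y : ℝ} (hz : z = s + (X - b) • u + Y • v)
    (hb : b < 1) (hX : b ≤ X) (c3 : a * (X - b) ≤ (1 - b) * Y)
    (c6 : (1 - a) * (X - b) ≤ (1 - b) * (1 - Y)) :
    z ∈ T s v ((1 - b) • u + a • v) := by
  have hb' : 0 < 1 - b := by linarith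
  refine ⟨Y - a * ((X - b) / (1 - b)), (X - b) / (1 - b), ?_, ?_, ?_, ?_⟩
  · have h1 : Y - a * ((X - b) / (1 - b)) = ((1 - b) * Y - a * (X - b)) / (1 - b) := by
      field_simp
    rw [h1]
    exact div_nonneg (by linarith) hb'.le
  · exact div_nonneg (by linarith) hb'.le
  · have h1 : Y - a * ((X - b) / (1 - b)) + (X - b) / (1 - b) =
        1 - ((1 - b) * (1 - Y) - (1 - a) * (X - b)) / (1 - b) := by
      field_simp
      ring
    rw [h1]
    have h2 : 0 ≤ ((1 - b) * (1 - Y) - (1 - a) * (X - b)) / (1 - b) :=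
      div_nonneg (by linarith) hb'.le
    linarith
  · have h1 : (1 - b) * ((X - b) / (1 - b)) = X - b := by field_simp
    rw [hz]
    generalize (X - b) / (1 - b) = c at *
    rw [← h1]
    module

private theorem corner_tri {s u v z : E2} {a b x y t X Y : ℝ}
    (hz : z = s + (X - b) • u + Y • v)
    (ht : t = (1 - a) * (x - b) - (1 - b) * (1 - y)) (ht0 : 0 < t)
    (c4 : (X - 1) * (y - a) + (1 - x) * (Y - a) ≤ 0)
    (c5 : (X - b) * (1 - y) + (Y - 1) * (x - b) ≤ 0)
    (c6 : (1 - b) * (1 - Y) ≤ (1 - a) * (X - b)) :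
    z ∈ T (s + (x - b) • u + y • v) ((1 - x) • u + (a - y) • v) ((b - x) • u + (1 - y) • v) := by
  refine ⟨-((X - x) * (1 - y) + (Y - y) * (x - b)) / t,
    -((1 - x) * (Y - y) + (y - a) * (X - x)) / t, ?_, ?_, ?_, ?_⟩
  · exact div_nonneg (by nlinarith) ht0.le
  · exact div_nonneg (by nlinarith) ht0.le
  · rw [← add_div, div_le_one ht0]
    nlinarith
  · have h1 : (X - x) = -((X - x) * (1 - y) + (Y - y) * (x - b)) / t * (1 - x) +
        -((1 - x) * (Y - y) + (y - a) * (X - x)) / t * (b - x) := by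
      field_simp
      rw [ht]
      ring
    have h2 : (Y - y) = -((X - x) * (1 - y) + (Y - y) * (x - b)) / t * (a - y) +
        -((1 - x) * (Y - y) + (y - a) * (X - x)) / t * (1 - y) := by
      field_simp
      rw [ht]
      ring
    generalize -((X - x) * (1 - y) + (Y - y) * (x - b)) / t = l at *
    generalize -((1 - x) * (Y - y) + (y - a) * (X - x)) / t = m at *
    have h3 : X = x + (l * (1 - x) + m * (b - x)) := by linarith
    have h4 : Y = y + (l * (a - y) + m * (1 - y)) := by linarith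
    rw [hz]
    rw [h3, h4]
    module

/-- the quadrilateral `p r q s` -/
theorem area_quad (C : Set E2) (s u v : E2) (a b : ℝ) (hb0 : 0 ≤ b) (hb1 : b ≤ 1)
    (h : ∀ z ∈ C, ∃ X Y : ℝ, z = s + (X - b) • u + Y • v ∧ 0 ≤ X ∧ X ≤ 1 ∧
      b * (Y - a) ≤ (1 - a) * X ∧ a * b ≤ a * X + b * Y ∧ a * (X - b) ≤ (1 - b) * Y ∧
      (1 - a) * (X - b) ≤ (1 - b) * (1 - Y)) :
    (volume C).toReal ≤ |cr u v| / 2 := by
  have h1 := volume_le3 C s v ((-b) • u + a • v) s v ((1 - b) • u + a • v) s 0 0 (by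
    intro z hz
    obtain ⟨X, Y, e, h0, h1, c1, c2, c3, c6⟩ := h z hz
    left
    rcases lt_or_ge X b with hX | hX
    · left
      exact left_tri e (by linarith) hX.le c1 c2
    · rcases lt_or_eq_of_le hb1 with hb | hb
      · right
        exact right_tri e hb hX c3 c6
      · left
        exact left_tri e (by linarith) (by linarith) c1 c2)
  have e1 : cr v ((-b) • u + a • v) = b * cr u v := by simp [cr]; ring
  have e2 : cr v ((1 - b) • u + a • v) = -((1 - b) * cr u v) := by simp [cr]; ring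
  rw [e1, e2, cr_zero_left, abs_neg, abs_mul, abs_mul, abs_of_nonneg hb0,
    abs_of_nonneg (by linarith : 0 ≤ 1 - b), abs_zero] at h1
  linarith

/-- the pentagon `q s p w r` -/
theorem area_pent (C : Set E2) (s u v : E2) (a b x y t : ℝ) (hb0 : 0 < b) (hb1 : b < 1)
    (ht : t = (1 - a) * (x - b) - (1 - b) * (1 - y)) (ht0 : 0 < t)
    (h : ∀ z ∈ C, ∃ X Y : ℝ, z = s + (X - b) • u + Y • v ∧
      b * (Y - a) ≤ (1 - a) * X ∧ a * b ≤ a * X + b * Y ∧ a * (X - b) ≤ (1 - b) * Y ∧
      (X - 1) * (y - a) + (1 - x) * (Y - a) ≤ 0 ∧ (X - b) * (1 - y) + (Y - 1) * (x - b) ≤ 0) :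
    (volume C).toReal ≤ |cr u v| * (1 + t) / 2 := by
  have h1 := volume_le3 C s v ((-b) • u + a • v) s v ((1 - b) • u + a • v)
    (s + (x - b) • u + y • v) ((1 - x) • u + (a - y) • v) ((b - x) • u + (1 - y) • v) (by
    intro z hz
    obtain ⟨X, Y, e, c1, c2, c3, c4, c5⟩ := h z hz
    rcases lt_or_ge X b with hX | hX
    · left; left
      exact left_tri e hb0 hX.le c1 c2
    · rcases le_total ((1 - a) * (X - b)) ((1 - b) * (1 - Y)) with c6 | c6
      · left; right
        exact right_tri e hb1 hX c3 c6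
      · right
        exact corner_tri e ht ht0 c4 c5 c6)
  have e1 : cr v ((-b) • u + a • v) = b * cr u v := by simp [cr]; ring
  have e2 : cr v ((1 - b) • u + a • v) = -((1 - b) * cr u v) := by simp [cr]; ring
  have e3 : cr ((1 - x) • u + (a - y) • v) ((b - x) • u + (1 - y) • v) = -(t * cr u v) := by
    rw [cr_comb, ht]
    ring
  rw [e1, e2, e3, abs_neg, abs_neg, abs_mul, abs_mul, abs_mul, abs_of_nonneg hb0.le,
    abs_of_nonneg (by linarith : 0 ≤ 1 - b), abs_of_pos ht0] at h1
  linarith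

end Pool.Agent.MP49888f.PG
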