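import Pool.Agent.Lib.MP_49888f_co.PG.Pent

/-! MP_49888f_co, polygons with at most five vertices: assembly (helper47). -/

set_option autoImplicit false

namespace Pool.Agent.MP49888f.PG

open MeasureTheory Set Pool.Agent.MP49888f.CV
open scoped Pointwise

/-- `p, q, r, s` in `S` with the largest cross product of two chords -/
def Max (S : Set E2) (p q r s : E2) : Prop :=
  p ∈ S ∧ q ∈ S ∧ r ∈ S ∧ s ∈ S ∧
    ∀ x ∈ S, ∀ x' ∈ S, ∀ y ∈ S, ∀ y' ∈ S, cr (x - x') (y - y') ≤ cr (p - q) (r - s)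

theorem Max.rot {S : Set E2} {p q r s : E2} (h : Max S p q r s) : Max S r s q p := by
  obtain ⟨hp, hq, hr, hs, hm⟩ := h
  refine ⟨hr, hs, hq, hp, fun x hx x' hx' y hy y' hy' => ?_⟩
  have e : cr (r - s) (q - p) = cr (p - q) (r - s) := by
    simp only [cr, PiLp.sub_apply]
    ring
  rw [e]
  exact hm x hx x' hx' y hy y' hy'

theorem exists_max (S : Finset E2) (hS : S.Nonempty) : ∃ p q r s, Max (S : Set E2) p q r s := by
  have hne : (S ×ˢ (S ×ˢ (S ×ˢ S))).Nonempty := by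
    obtain ⟨c, hc⟩ := hS
    exact ⟨(c, c, c, c), by simp [hc]⟩
  obtain ⟨m, hm, hmax⟩ := Finset.exists_max_image (S ×ˢ (S ×ˢ (S ×ˢ S)))
    (fun m => cr (m.1 - m.2.1) (m.2.2.1 - m.2.2.2)) hne
  simp only [Finset.mem_product] at hm hmax
  refine ⟨m.1, m.2.1, m.2.2.1, m.2.2.2, hm.1, hm.2.1, hm.2.2.1, hm.2.2.2, ?_⟩
  intro x hx x' hx' y hy y' hy'
  exact hmax (x, x', y, y') ⟨hx, hx', hy, hy'⟩

private theorem conv1 (x' w : E2) (R : ℝ) : Convex ℝ {x : E2 | cr (x - x') w ≤ R} := by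
  intro x hx y hy c d hc hd hcd
  have e : cr (c • x + d • y - x') w = c * cr (x - x') w + d * cr (y - x') w := by
    have e1 : d = 1 - c := by linarith
    rw [e1]
    simp only [cr, PiLp.sub_apply, PiLp.add_apply, PiLp.smul_apply, smul_eq_mul]
    ring
  have h1 : cr (x - x') w ≤ R := hx
  have h2 : cr (y - x') w ≤ R := hy
  show cr (c • x + d • y - x') w ≤ R
  rw [e]
  have h3 : R = c * R + d * R := by rw [← add_mul, hcd, one_mul]
  nlinarith

private theorem conv2 (x w : E2) (R : ℝ) : Convex ℝ {x' : E2 | cr (x - x') w ≤ R} := by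
  intro a ha b hb c d hc hd hcd
  have e : cr (x - (c • a + d • b)) w = c * cr (x - a) w + d * cr (x - b) w := by
    have e1 : d = 1 - c := by linarith
    rw [e1]
    simp only [cr, PiLp.sub_apply, PiLp.add_apply, PiLp.smul_apply, smul_eq_mul]
    ring
  have h1 : cr (x - a) w ≤ R := ha
  have h2 : cr (x - b) w ≤ R := hb
  show cr (x - (c • a + d • b)) w ≤ R
  rw [e]
  have h3 : R = c * R + d * R := by rw [← add_mul, hcd, one_mul]
  nlinarith

theorem hull_max {S : Set E2} {R : ℝ}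
    (h : ∀ x ∈ S, ∀ x' ∈ S, ∀ y ∈ S, ∀ y' ∈ S, cr (x - x') (y - y') ≤ R) :
    ∀ x ∈ convexHull ℝ S, ∀ x' ∈ convexHull ℝ S, ∀ y ∈ convexHull ℝ S, ∀ y' ∈ convexHull ℝ S,
      cr (x - x') (y - y') ≤ R := by
  have swap : ∀ x x' y y' : E2, cr (x - x') (y - y') = cr (y - y') (x' - x) := by
    intro x x' y y'
    simp only [cr, PiLp.sub_apply]
    ring
  have h1 : ∀ x ∈ convexHull ℝ S, ∀ x' ∈ S, ∀ y ∈ S, ∀ y' ∈ S, cr (x - x') (y - y') ≤ R :=
    fun x hx x' hx' y hy y' hy' =>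
      (convexHull_min (fun z hz => h z hz x' hx' y hy y' hy') (conv1 x' (y - y') R)) hx
  have h2 : ∀ x ∈ convexHull ℝ S, ∀ x' ∈ convexHull ℝ S, ∀ y ∈ S, ∀ y' ∈ S,
      cr (x - x') (y - y') ≤ R :=
    fun x hx x' hx' y hy y' hy' =>
      (convexHull_min (fun z hz => h1 x hx z hz y hy y' hy') (conv2 x (y - y') R)) hx'
  have h3 : ∀ x ∈ convexHull ℝ S, ∀ x' ∈ convexHull ℝ S, ∀ y ∈ convexHull ℝ S, ∀ y' ∈ S,
      cr (x - x') (y - y') ≤ R := by
    intro x hx x' hx' y hy y' hy'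
    rw [swap]
    refine (convexHull_min (fun z hz => ?_) (conv1 y' (x' - x) R)) hy
    show cr (z - y') (x' - x) ≤ R
    rw [← swap]
    exact h2 x hx x' hx' z hz y' hy'
  intro x hx x' hx' y hy y' hy'
  rw [swap]
  refine (convexHull_min (fun z hz => ?_) (conv2 y (x' - x) R)) hy'
  show cr (y - z) (x' - x) ≤ R
  rw [← swap]
  exact h3 x hx x' hx' y hy z hz

theorem max_pos {S : Set E2} {p q r s : E2} (h : Max S p q r s)
    (hint : (interior (convexHull ℝ S)).Nonempty) : 0 < cr (p - q) (r - s) := by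
  obtain ⟨c, hc⟩ := hint
  rw [mem_interior_iff_mem_nhds, Metric.mem_nhds_iff] at hc
  obtain ⟨δ, hδ, hb⟩ := hc
  have hn : ∀ z : E2, ‖z‖ = 1 → c + (δ / 2) • z ∈ convexHull ℝ S := by
    intro z hz
    apply hb
    rw [Metric.mem_ball, dist_eq_norm, add_sub_cancel_left, norm_smul, hz, mul_one,
      Real.norm_of_nonneg (by linarith)]
    linarith
  have h1 := hn (EuclideanSpace.single 0 1) (by simp)
  have h2 := hn (EuclideanSpace.single 1 1) (by simp)
  have h0 : c ∈ convexHull ℝ S := hb (Metric.mem_ball_self hδ)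
  have h3 := hull_max h.2.2.2.2 _ h1 _ h0 _ h2 _ h0
  have e : cr (c + (δ / 2) • (EuclideanSpace.single 0 1 : E2) - c)
      (c + (δ / 2) • (EuclideanSpace.single 1 1 : E2) - c) = δ / 2 * (δ / 2) := by
    simp [cr]
  rw [e] at h3
  have : 0 < δ / 2 * (δ / 2) := by positivity
  linarith

/-- coordinates of the points of `S` -/
theorem Max.coord {S : Set E2} {p q r s : E2} (h : Max S p q r s)
    (hR : 0 < cr (p - q) (r - s)) :
    ∃ a b : ℝ, 0 ≤ a ∧ a ≤ 1 ∧ 0 ≤ b ∧ b ≤ 1 ∧ q = s + (-b) • (p - q) + a • (r - s) ∧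
      p = s + (1 - b) • (p - q) + a • (r - s) ∧
      ∀ z ∈ S, ∃ X Y : ℝ, z = s + (X - b) • (p - q) + Y • (r - s) ∧ 0 ≤ X ∧ X ≤ 1 ∧ 0 ≤ Y ∧
        Y ≤ 1 := by
  obtain ⟨hp, hq, hr, hs, hm⟩ := h
  obtain ⟨R, hRdef⟩ : ∃ R : ℝ, R = cr (p - q) (r - s) := ⟨_, rfl⟩
  rw [← hRdef] at hR
  have hcoord : ∀ z : E2, z = s + (cr (z - q) (r - s) / R - cr (s - q) (r - s) / R) • (p - q) +
      (cr (p - q) (z - s) / R) • (r - s) := by
    intro z
    have h1 := cr_expand (p - q) (r - s) (z - s)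
    have h2 : cr (z - q) (r - s) / R - cr (s - q) (r - s) / R = R⁻¹ * cr (z - s) (r - s) := by
      have : cr (z - s) (r - s) = cr (z - q) (r - s) - cr (s - q) (r - s) := by
        simp only [cr, PiLp.sub_apply]
        ring
      rw [this]
      field_simp
    have h3 : cr (p - q) (z - s) / R = R⁻¹ * cr (p - q) (z - s) := by
      rw [div_eq_inv_mul]
    rw [h2, h3, mul_smul, mul_smul, add_assoc, ← smul_add, ← h1, ← hRdef, smul_smul,
      inv_mul_cancel₀ hR.ne', one_smul]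
    abel
  have hX : ∀ z ∈ S, 0 ≤ cr (z - q) (r - s) / R ∧ cr (z - q) (r - s) / R ≤ 1 := by
    intro z hz
    have h1 := hm z hz q hq r hr s hs
    have h2 := hm p hp z hz r hr s hs
    rw [← hRdef] at h1 h2
    refine ⟨div_nonneg ?_ hR.le, (div_le_one hR).mpr h1⟩
    have h3 : cr (p - z) (r - s) = R - cr (z - q) (r - s) := by
      rw [hRdef]
      simp only [cr, PiLp.sub_apply]
      ring
    linarith
  have hY : ∀ z ∈ S, 0 ≤ cr (p - q) (z - s) / R ∧ cr (p - q) (z - s) / R ≤ 1 := by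
    intro z hz
    have h1 := hm p hp q hq z hz s hs
    have h2 := hm p hp q hq r hr z hz
    rw [← hRdef] at h1 h2
    refine ⟨div_nonneg ?_ hR.le, (div_le_one hR).mpr h1⟩
    have h3 : cr (p - q) (r - z) = R - cr (p - q) (z - s) := by
      rw [hRdef]
      simp only [cr, PiLp.sub_apply]
      ring
    linarith
  have hq' := hcoord q
  rw [sub_self, cr_zero_left, zero_div, zero_sub] at hq'
  refine ⟨cr (p - q) (q - s) / R, cr (s - q) (r - s) / R, (hY q hq).1, (hY q hq).2, (hX s hs).1,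
    (hX s hs).2, hq', ?_, fun z hz => ⟨_, _, hcoord z, (hX z hz).1, (hX z hz).2, (hY z hz).1,
      (hY z hz).2⟩⟩
  have hp' := hcoord p
  have h1 : cr (p - q) (r - s) / R = 1 := by rw [← hRdef, div_self hR.ne']
  have h2 : cr (p - q) (p - s) = cr (p - q) (q - s) := by
    simp only [cr, PiLp.sub_apply]
    ring
  rw [h1, h2] at hp'
  exact hp'

end Pool.Agent.MP49888f.PG
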