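import Pool.Agent.Lib.MP_49888f_co.PG.Area
import Pool.Agent.Lib.MP_49888f_co.CV.Cover
import Pool.Agent.Lib.MP_49888f_co.CV.Dens

/-! MP_49888f_co, polygons with at most five vertices: convex hulls and the hexagon of a pentagon (helper47). -/

set_option autoImplicit false

namespace Pool.Agent.MP49888f.PG

open MeasureTheory Set Pool.Agent.MP49888f.CV

theorem hull_lin {n : ℕ} (V : Set E2) (s u v : E2) (b : ℝ) (α β γ : Fin n → ℝ)
    (h : ∀ z ∈ V, ∃ X Y : ℝ, z = s + (X - b) • u + Y • v ∧ ∀ j, α j * X + β j * Y ≤ γ j) :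
    ∀ z ∈ convexHull ℝ V, ∃ X Y : ℝ, z = s + (X - b) • u + Y • v ∧
      ∀ j, α j * X + β j * Y ≤ γ j := by
  have h1 : convexHull ℝ V ⊆ {z | ∃ X Y : ℝ, z = s + (X - b) • u + Y • v ∧
      ∀ j, α j * X + β j * Y ≤ γ j} := by
    refine convexHull_min h ?_
    rintro z ⟨X, Y, hz, hj⟩ z' ⟨X', Y', hz', hj'⟩ c d hc hd hcd
    refine ⟨c * X + d * X', c * Y + d * Y', ?_, fun j => ?_⟩
    · have e : d = 1 - c := by linarith
      rw [hz, hz', e]
      module
    · have h2 := mul_le_mul_of_nonneg_left (hj j) hc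
      have h3 := mul_le_mul_of_nonneg_left (hj' j) hd
      have e : γ j = c * γ j + d * γ j := by rw [← add_mul, hcd, one_mul]
      rw [e]
      nlinarith
  exact fun z hz => h1 hz

/-- two-dimensional expansion -/
theorem cr_expand (e f x : E2) : cr e f • x = cr x f • e + cr e x • f := by
  ext i
  fin_cases i
  · simp [cr]
    ring
  · simp [cr]
    ring

/-- the functional `x ↦ cr e x` -/
def crL (e : E2) : E2 →ₗ[ℝ] ℝ where
  toFun x := cr e x
  map_add' x y := cr_add_right e x y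
  map_smul' c x := cr_smul_right c e x

theorem crL_apply (e x : E2) : crL e x = cr e x := rfl

/-- the covering by the hexagon `A, A + e, A + e + f, P, A + f, Q` -/
theorem hex_cov (C : Set E2) (hC : Convex ℝ C) (hk : IsCompact C) (A e f P Q : E2)
    (hA : A ∈ C) (hAe : A + e ∈ C) (hAf : A + f ∈ C) (hAef : A + e + f ∈ C)
    (hP : P ∈ C) (hQ : Q ∈ C) (h0 : 0 < cr e f) (h1 : 0 ≤ cr e (P - (A + f)))
    (h2 : 0 ≤ cr e (A - Q)) :
    CovLE C (2 * (volume C).toReal / |cr e (f + P - Q)|) := by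
  have hH : 0 < cr e (f + P - Q) := by
    have e1 : cr e (f + P - Q) = cr e f + cr e f + cr e (P - (A + f)) + cr e (A - Q) := by
      simp only [cr_sub_right, cr_add_right]
      ring
    rw [e1]
    linarith
  refine dens C hk ⟨A, hA⟩ e (f + P - Q) (A + f + P) hH.ne' fun x => ?_
  refine cover C hC (crL e) A e f P Q ?_ ?_ hA hAe hAf hAef hP hQ ?_ ?_ ?_ ?_ x
  · intro y hy
    rw [crL_apply] at hy
    refine ⟨cr y f / cr e f, ?_⟩
    have h3 := cr_expand e f y
    rw [hy, zero_smul, add_zero] at h3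
    rw [div_eq_inv_mul, mul_smul, ← h3, smul_smul, inv_mul_cancel₀ h0.ne', one_smul]
  · rw [crL_apply, cr_self]
  · rw [crL_apply]
    exact h0.le
  · rw [crL_apply, crL_apply]
    rw [cr_sub_right] at h1
    linarith
  · rw [crL_apply, crL_apply]
    rw [cr_sub_right] at h2
    linarith
  · rw [crL_apply]
    exact hH

end Pool.Agent.MP49888f.PG
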