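import Pool.Agent.Lib.MP_49888f_co.CV.Frame

/-! MP_49888f_co, polygons with at most five vertices: triangles (helper47). -/

set_option autoImplicit false

namespace Pool.Agent.MP49888f.PG

open MeasureTheory Set Pool.Agent.MP49888f.CV

/-- the standard triangle -/
def S0 : Set (ℝ × ℝ) := {p | 0 ≤ p.1 ∧ 0 ≤ p.2 ∧ p.1 + p.2 ≤ 1}

/-- the triangle `A, A + U, A + V` -/
def T (A U V : E2) : Set E2 := {z | ∃ l m : ℝ, 0 ≤ l ∧ 0 ≤ m ∧ l + m ≤ 1 ∧ z = A + l • U + m • V}

theorem isClosed_S0 : IsClosed S0 := by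
  have h1 : IsClosed {p : ℝ × ℝ | 0 ≤ p.1} := isClosed_le continuous_const continuous_fst
  have h2 : IsClosed {p : ℝ × ℝ | 0 ≤ p.2} := isClosed_le continuous_const continuous_snd
  have h3 : IsClosed {p : ℝ × ℝ | p.1 + p.2 ≤ 1} :=
    isClosed_le (continuous_fst.add continuous_snd) continuous_const
  have h4 : S0 = {p : ℝ × ℝ | 0 ≤ p.1} ∩ ({p : ℝ × ℝ | 0 ≤ p.2} ∩ {p : ℝ × ℝ | p.1 + p.2 ≤ 1}) := by
    ext p
    simp [S0]
  rw [h4]
  exact h1.inter (h2.inter h3)

theorem volume_S0 : volume S0 = ENNReal.ofReal (1 / 2) := by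
  rw [Measure.volume_eq_prod, Measure.prod_apply isClosed_S0.measurableSet]
  have h1 : ∀ x : ℝ, volume (Prod.mk x ⁻¹' S0) =
      (Icc (0 : ℝ) 1).indicator (fun x => ENNReal.ofReal (1 - x)) x := by
    intro x
    by_cases hx : x ∈ Icc (0 : ℝ) 1
    · rw [indicator_of_mem hx]
      have e : Prod.mk x ⁻¹' S0 = Icc 0 (1 - x) := by
        ext y
        simp only [S0, mem_preimage, mem_ofPred_eq, mem_Icc]
        constructor
        · rintro ⟨_, h2, h3⟩
          exact ⟨h2, by linarith⟩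
        · rintro ⟨h2, h3⟩
          exact ⟨hx.1, h2, by linarith⟩
      rw [e, Real.volume_Icc, sub_zero]
    · rw [indicator_of_notMem hx]
      have e : Prod.mk x ⁻¹' S0 = ∅ := by
        ext y
        simp only [S0, mem_preimage, mem_ofPred_eq, mem_empty_iff_false, iff_false]
        rintro ⟨h1, h2, h3⟩
        exact hx ⟨h1, by linarith⟩
      rw [e, measure_empty]
  rw [lintegral_congr h1, lintegral_indicator measurableSet_Icc]
  have h2 : ∫⁻ x in Icc (0 : ℝ) 1, ENNReal.ofReal (1 - x) =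
      ENNReal.ofReal (∫ x in Icc (0 : ℝ) 1, (1 - x)) := by
    refine (ofReal_integral_eq_lintegral_ofReal ?_ ?_).symm
    · exact (Continuous.integrableOn_Icc (by fun_prop))
    · filter_upwards [ae_restrict_mem measurableSet_Icc] with x hx
      show (0 : ℝ) ≤ 1 - x
      linarith [hx.2]
  rw [h2, integral_Icc_eq_integral_Ioc, ← intervalIntegral.integral_of_le zero_le_one]
  congr 1
  rw [intervalIntegral.integral_sub (by simp) (by simp)]
  simp
  norm_num

theorem volume_T (A U V : E2) : volume (T A U V) = ENNReal.ofReal (|cr U V| / 2) := by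
  have h1 : T A U V = (fun z => A + z) '' (fr U V '' S0) := by
    ext z
    constructor
    · rintro ⟨l, m, h1, h2, h3, h4⟩
      refine ⟨fr U V (l, m), ⟨(l, m), ⟨h1, h2, h3⟩, rfl⟩, ?_⟩
      rw [h4]
      unfold fr
      module
    · rintro ⟨_, ⟨⟨l, m⟩, ⟨h1, h2, h3⟩, rfl⟩, rfl⟩
      refine ⟨l, m, h1, h2, h3, ?_⟩
      show A + (l • U + m • V) = A + l • U + m • V
      module
  rw [h1, Set.image_add_left, measure_preimage_add, volume_fr_image, volume_S0,
    ← ENNReal.ofReal_mul (abs_nonneg _)]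
  congr 1
  ring

/-- three triangles -/
theorem volume_le3 (C : Set E2) (A1 U1 V1 A2 U2 V2 A3 U3 V3 : E2)
    (h : C ⊆ T A1 U1 V1 ∪ T A2 U2 V2 ∪ T A3 U3 V3) :
    (volume C).toReal ≤ |cr U1 V1| / 2 + |cr U2 V2| / 2 + |cr U3 V3| / 2 := by
  have h1 : volume C ≤ ENNReal.ofReal (|cr U1 V1| / 2) + ENNReal.ofReal (|cr U2 V2| / 2) +
      ENNReal.ofReal (|cr U3 V3| / 2) := by
    refine (measure_mono h).trans ?_
    refine (measure_union_le _ _).trans ?_
    refine add_le_add ((measure_union_le _ _).trans ?_) (volume_T _ _ _).le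
    exact add_le_add (volume_T _ _ _).le (volume_T _ _ _).le
  rw [← ENNReal.ofReal_add (by positivity) (by positivity),
    ← ENNReal.ofReal_add (by positivity) (by positivity)] at h1
  exact ENNReal.toReal_le_of_le_ofReal (by positivity) h1

end Pool.Agent.MP49888f.PG
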